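import Mathlib

/-!
# Boundary independence versus hearing independence of broadcasts

For every finite graph the lower boundary independent broadcast number is at most the lower
hearing independent broadcast number.
-/

namespace Pool.Agent.Lib.MP_2a7bed_co.BnLeHearing

open SimpleGraph Finset

universe u

variable {V : Type u} [Fintype V] (G : SimpleGraph V)

/-- Eccentricity of `v` in its own component (the value of `dist` is `0` on unreachable pairs). -/
noncomputable def ecc (v : V) : ℕ := Finset.univ.sup (fun w => G.dist v w)

/-- Broadcasts: `f v ≤ e(v)` at every vertex whose component has at least two vertices, and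
`f v = 1` at a vertex that is a component by itself. -/
structure IsBroadcast (f : V → ℕ) : Prop where
  le_ecc : ∀ v, (∃ w, G.Adj v w) → f v ≤ ecc G v
  isolated : ∀ v, (¬ ∃ w, G.Adj v w) → f v = 1

/-- The vertex `x` hears `f` from the broadcasting vertex `v`. -/
def Hears (f : V → ℕ) (x v : V) : Prop := 0 < f v ∧ G.Reachable x v ∧ G.dist x v ≤ f v

/-- Boundary independence: a vertex hearing two or more broadcasting vertices is in the interior
of no broadcast. -/
def BnIndependent (f : V → ℕ) : Prop :=
  ∀ x, (∃ u v, u ≠ v ∧ Hears G f x u ∧ Hears G f x v) →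
    ∀ u, 0 < f u → G.Reachable x u → f u ≤ G.dist x u

/-- Hearing independence: no broadcasting vertex hears another broadcasting vertex. -/
def HearingIndependent (f : V → ℕ) : Prop :=
  ∀ u v, 0 < f u → 0 < f v → u ≠ v → ¬ Hears G f u v

/-- `f` is a maximal broadcast with the property `P`. -/
def IsMaximalBroadcast (P : (V → ℕ) → Prop) (f : V → ℕ) : Prop :=
  IsBroadcast G f ∧ P f ∧ ∀ g, IsBroadcast G g → P g → (∀ v, f v ≤ g v) → g = f

/-- The costs of the maximal broadcasts with the property `P`. -/
def costs (P : (V → ℕ) → Prop) : Set ℕ := {c | ∃ f, IsMaximalBroadcast G P f ∧ ∑ v, f v = c}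

/-- Minimum cost of a maximal boundary independent broadcast. -/
noncomputable def ibn : ℕ := sInf (costs G (BnIndependent G))

/-- Minimum cost of a maximal hearing independent broadcast. -/
noncomputable def ih : ℕ := sInf (costs G (HearingIndependent G))

/-! ### Being within a given distance -/

section within

omit [Fintype V]

/-- `x` and `y` are joined by a walk of length at most `r`. -/
def W (x y : V) (r : ℕ) : Prop := ∃ p : G.Walk x y, p.length ≤ r

variable {G}

lemma W.refl (x : V) (r : ℕ) : W G x x r := ⟨Walk.nil, by simp⟩

lemma W.symm {x y : V} {r : ℕ} (h : W G x y r) : W G y x r := by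
  obtain ⟨p, hp⟩ := h
  exact ⟨p.reverse, by simpa using hp⟩

lemma W.trans {x y z : V} {r s : ℕ} (h : W G x y r) (h' : W G y z s) : W G x z (r + s) := by
  obtain ⟨p, hp⟩ := h
  obtain ⟨q, hq⟩ := h'
  exact ⟨p.append q, by rw [Walk.length_append]; omega⟩

lemma W.mono {x y : V} {r s : ℕ} (h : W G x y r) (hrs : r ≤ s) : W G x y s := by
  obtain ⟨p, hp⟩ := h
  exact ⟨p, hp.trans hrs⟩

lemma W.reachable {x y : V} {r : ℕ} (h : W G x y r) : G.Reachable x y := ⟨h.choose⟩

lemma W.dist_le {x y : V} {r : ℕ} (h : W G x y r) : G.dist x y ≤ r := by
  obtain ⟨p, hp⟩ := h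
  exact (SimpleGraph.dist_le p).trans hp

lemma W_of {x y : V} {r : ℕ} (h : G.Reachable x y) (h' : G.dist x y ≤ r) : W G x y r := by
  obtain ⟨p, hp⟩ := h.exists_walk_length_eq_dist
  exact ⟨p, by omega⟩

lemma W_of_adj {x y : V} (h : G.Adj x y) : W G x y 1 := ⟨h.toWalk, by simp⟩

/-- The merging lemma. -/
lemma merge {c w : V} {a b : ℕ} (h : W G c w (a + b + 1)) :
    ∃ y y', W G y y' 1 ∧ W G c y b ∧ W G y' w a := by
  obtain ⟨p, hp⟩ := h
  rcases Nat.eq_zero_or_pos p.length with h0 | h0
  · have hcw : c = w := Walk.eq_of_length_eq_zero h0
    subst hcw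
    exact ⟨c, c, W.refl _ _, W.refl _ _, W.refl _ _⟩
  · have hlt : min b (p.length - 1) < p.length := by omega
    refine ⟨p.getVert (min b (p.length - 1)), p.getVert (min b (p.length - 1) + 1),
      W_of_adj (p.adj_getVert_succ hlt), ?_, ?_⟩
    · exact ⟨p.take _, by rw [Walk.take_length]; omega⟩
    · exact ⟨p.drop _, by rw [Walk.drop_length]; omega⟩

end within

/-! ### States -/

variable {G} in
lemma dist_le_ecc (v w : V) : G.dist v w ≤ ecc G v :=
  Finset.le_sup (f := fun w => G.dist v w) (Finset.mem_univ w)

variable {G} in
lemma exists_dist_eq_ecc (v : V) : ∃ w, G.Reachable v w ∧ G.dist v w = ecc G v := by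
  obtain ⟨w, -, hw⟩ := Finset.exists_mem_eq_sup (Finset.univ : Finset V) ⟨v, Finset.mem_univ v⟩
    (fun w => G.dist v w)
  by_cases hr : G.Reachable v w
  · exact ⟨w, hr, hw.symm⟩
  · refine ⟨v, Reachable.refl v, ?_⟩
    have : ecc G v = 0 := by
      unfold ecc
      rw [hw]
      exact dist_eq_zero_of_not_reachable hr
    rw [this]; simp

/-- The broadcasting set. -/
def supp (g : V → ℕ) : Finset V := Finset.univ.filter (fun v => 0 < g v)

lemma mem_supp {g : V → ℕ} {v : V} : v ∈ supp g ↔ 0 < g v := by simp [supp]

/-- All balls have a definite centre. -/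
def StA (g : V → ℕ) : Prop :=
  (∀ x, ∃ c, 0 < g c ∧ W G x c (g c)) ∧
  (∀ c, 0 < g c → (∃ c', c' ≠ c ∧ 0 < g c' ∧ W G c c' (g c + g c')) ∨
    (∀ x, G.Reachable c x → W G x c (g c)))

/-- One extra ball of cost `S + 1` whose centre may still be chosen to be `w` or `w'`. -/
def StB (g : V → ℕ) (w w' : V) (S : ℕ) : Prop :=
  W G w w' 1 ∧
  (∀ x, (∃ c, 0 < g c ∧ W G x c (g c)) ∨ W G x w S ∨ W G x w' S) ∧
  (∀ c, 0 < g c → (∃ c', c' ≠ c ∧ 0 < g c' ∧ W G c c' (g c + g c')) ∨
    (W G c w (g c + S + 1) ∧ W G c w' (g c + S + 1)) ∨
    (∀ x, G.Reachable c x → W G x c (g c)))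

variable {G}

lemma sum_update [DecidableEq V] (g : V → ℕ) (c : V) (a : ℕ) :
    ∑ v, Function.update g c a v + g c = ∑ v, g v + a := by
  have h1 := Finset.sum_update_of_mem (Finset.mem_univ c) g a
  have h2 := Finset.add_sum_erase Finset.univ g (Finset.mem_univ c)
  have h3 : (Finset.univ \ {c} : Finset V) = Finset.univ.erase c := by
    ext x; simp
  rw [h1, h3]
  omega

lemma card_supp_update_zero [DecidableEq V] (g : V → ℕ) (c : V) (hc : 0 < g c) :
    (supp (Function.update g c 0)).card + 1 = (supp g).card := by
  have : supp (Function.update g c 0) = (supp g).erase c := by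
    ext x
    by_cases hx : x = c
    · subst hx; simp [supp]
    · simp [supp, hx]
  rw [this]
  exact Finset.card_erase_add_one (mem_supp.2 hc)

lemma card_supp_update_pos [DecidableEq V] (g : V → ℕ) (c : V) (a : ℕ) :
    (supp (Function.update g c a)).card ≤ (supp g).card + 1 := by
  have : supp (Function.update g c a) ⊆ insert c (supp g) := by
    intro x hx
    by_cases hxc : x = c
    · simp [hxc]
    · rw [mem_supp, Function.update_of_ne hxc] at hx
      exact Finset.mem_insert_of_mem (mem_supp.2 hx)
  exact (Finset.card_le_card this).trans (Finset.card_insert_le _ _)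

lemma stepB : ∀ (k : ℕ) (g : V → ℕ) (w w' : V) (S : ℕ), StB G g w w' S → (supp g).card = k →
    ∃ h, StA G h ∧ ∑ v, h v ≤ ∑ v, g v + (S + 1) ∧ (supp h).card ≤ k + 1 := by
  classical
  intro k
  induction k with
  | zero =>
    intro g w w' S hB hk
    -- no fixed ball at all
    have h0 : ∀ c, g c = 0 := by
      intro c
      by_contra hc
      have : c ∈ supp g := mem_supp.2 (Nat.pos_of_ne_zero hc)
      rw [Finset.card_eq_zero.1 hk] at this
      simp at this
    obtain ⟨hww, hdom, -⟩ := hB
    have hdom' : ∀ x, W G x w (S + 1) := by
      intro x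
      rcases hdom x with ⟨c, hc, -⟩ | h | h
      · rw [h0 c] at hc; omega
      · exact h.mono (by omega)
      · exact (h.trans hww.symm)
    refine ⟨Function.update g w (S + 1), ⟨?_, ?_⟩, ?_, ?_⟩
    · intro x
      exact ⟨w, by simp, by simpa using hdom' x⟩
    · intro c hc
      have hcw : c = w := by
        by_contra hne
        rw [Function.update_of_ne hne, h0 c] at hc; omega
      subst hcw
      right
      intro x _
      simpa using hdom' x
    · have := sum_update g w (S + 1)
      rw [h0 w] at this
      omega
    · have := card_supp_update_pos g w (S + 1)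
      omega
  | succ k ih =>
    intro g w w' S hB hk
    obtain ⟨hww, hdom, hsat⟩ := hB
    by_cases hov : ∃ c, 0 < g c ∧ ∃ z, (z = w ∨ z = w') ∧ W G c z (g c + S)
    · -- merge
      obtain ⟨c, hc, z, hz, hcz⟩ := hov
      obtain ⟨a, ha⟩ : ∃ a, g c = a + 1 := ⟨g c - 1, by omega⟩
      have hcz' : W G c z (a + S + 1) := hcz.mono (by omega)
      obtain ⟨y, y', hyy, hcy, hyz⟩ := merge hcz'
      have hzw : ∀ x, (W G x w S ∨ W G x w' S) → W G x z (S + 1) := by
        intro x hx
        rcases hz with rfl | rfl
        · rcases hx with hx | hx
          · exact hx.mono (by omega)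
          · exact hx.trans hww.symm
        · rcases hx with hx | hx
          · exact hx.trans hww
          · exact hx.mono (by omega)
      have hB' : StB G (Function.update g c 0) y y' (a + S + 1) := by
        refine ⟨hyy, ?_, ?_⟩
        · intro x
          rcases hdom x with ⟨c₀, hc₀, hx⟩ | hx
          · by_cases h : c₀ = c
            · subst h
              right; left
              rw [ha] at hx
              exact (hx.trans hcy).mono (by omega)
            · left
              exact ⟨c₀, by rwa [Function.update_of_ne h], by rwa [Function.update_of_ne h]⟩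
          · right; right
            exact ((hzw x hx).trans hyz.symm).mono (by omega)
        · intro c₀ hc₀
          have hne : c₀ ≠ c := by
            rintro rfl
            simp at hc₀
          rw [Function.update_of_ne hne] at hc₀ ⊢
          rcases hsat c₀ hc₀ with ⟨c', hc'ne, hc', hW⟩ | ⟨hw1, hw2⟩ | hfull
          · by_cases h : c' = c
            · subst h
              right; left
              rw [ha] at hW
              have h1 : W G c₀ y (g c₀ + (a + 1) + S) := hW.trans hcy
              exact ⟨h1.mono (by omega), (h1.trans hyy).mono (by omega)⟩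
            · left
              exact ⟨c', hc'ne, by rwa [Function.update_of_ne h], by rwa [Function.update_of_ne h]⟩
          · right; left
            have hz1 : W G c₀ z (g c₀ + S + 1) := by
              rcases hz with rfl | rfl
              · exact hw1
              · exact hw2
            have h1 : W G c₀ y' (g c₀ + S + 1 + a) := hz1.trans hyz.symm
            exact ⟨(h1.trans hyy.symm).mono (by omega), h1.mono (by omega)⟩
          · right; right
            exact hfull
      have hcard := card_supp_update_zero g c hc
      obtain ⟨h, hA, hsum, hcd⟩ := ih (Function.update g c 0) y y' (a + S + 1) hB' (by omega)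
      refine ⟨h, hA, ?_, by omega⟩
      have := sum_update g c 0
      omega
    · -- no overlap
      push Not at hov
      have hgz : ∀ z, (z = w ∨ z = w') → g z = 0 := by
        intro z hz
        by_contra h
        exact hov z (Nat.pos_of_ne_zero h) z hz (W.refl _ _)
      -- choose the centre
      have key : ∃ z, (z = w ∨ z = w') ∧
          ((∃ c', c' ≠ z ∧ 0 < g c' ∧ W G z c' (S + 1 + g c')) ∨
            (∀ x, G.Reachable z x → W G x z (S + 1))) := by
        by_cases hfull : ∀ x, G.Reachable w x → (W G x w S ∨ W G x w' S)
        · refine ⟨w, Or.inl rfl, Or.inr ?_⟩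
          intro x hx
          rcases hfull x hx with h | h
          · exact h.mono (by omega)
          · exact h.trans hww.symm
        · push Not at hfull
          obtain ⟨x, hwx, hx1, hx2⟩ := hfull
          obtain ⟨p⟩ := hwx
          obtain ⟨d, -, hd1, hd2⟩ := p.exists_boundary_dart
            {x | W G x w S ∨ W G x w' S} (Or.inl (W.refl _ _)) (by
              simp only [Set.mem_ofPred_eq, not_or]
              exact ⟨hx1, hx2⟩)
          simp only [Set.mem_ofPred_eq] at hd1 hd2
          have hadj : W G d.snd d.fst 1 := (W_of_adj d.adj).symm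
          obtain ⟨c, hc, hbc⟩ : ∃ c, 0 < g c ∧ W G d.snd c (g c) := by
            rcases hdom d.snd with h | h
            · exact h
            · exact absurd h hd2
          obtain ⟨z, hz, hzd⟩ : ∃ z, (z = w ∨ z = w') ∧ W G d.fst z S := by
            rcases hd1 with h | h
            · exact ⟨w, Or.inl rfl, h⟩
            · exact ⟨w', Or.inr rfl, h⟩
          refine ⟨z, hz, Or.inl ⟨c, ?_, hc, ?_⟩⟩
          · rintro rfl
            rw [hgz c hz] at hc; omega
          · exact ((hzd.symm.trans hadj.symm).trans hbc).mono (by omega)
      obtain ⟨z, hz, hkey⟩ := key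
      have hgz0 := hgz z hz
      have hcov : ∀ x, (W G x w S ∨ W G x w' S) → W G x z (S + 1) := by
        intro x hx
        rcases hz with rfl | rfl
        · rcases hx with hx | hx
          · exact hx.mono (by omega)
          · exact hx.trans hww.symm
        · rcases hx with hx | hx
          · exact hx.trans hww
          · exact hx.mono (by omega)
      have hne : ∀ c, 0 < g c → c ≠ z := by
        rintro c hc rfl
        rw [hgz0] at hc; omega
      refine ⟨Function.update g z (S + 1), ⟨?_, ?_⟩, ?_, ?_⟩
      · intro x
        rcases hdom x with ⟨c, hc, hx⟩ | hx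
        · exact ⟨c, by rwa [Function.update_of_ne (hne c hc)],
            by rwa [Function.update_of_ne (hne c hc)]⟩
        · exact ⟨z, by simp, by simpa using hcov x hx⟩
      · intro c hc
        by_cases hcz : c = z
        · subst hcz
          rcases hkey with ⟨c', hc'ne, hc', hW⟩ | hfull
          · left
            exact ⟨c', hc'ne, by rwa [Function.update_of_ne hc'ne],
              by simpa [Function.update_of_ne hc'ne] using hW⟩
          · right
            simpa using hfull
        · rw [Function.update_of_ne hcz] at hc ⊢
          rcases hsat c hc with ⟨c', hc'ne, hc', hW⟩ | ⟨hw1, hw2⟩ | hfull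
          · left
            exact ⟨c', hc'ne, by rwa [Function.update_of_ne (hne c' hc')],
              by rwa [Function.update_of_ne (hne c' hc')]⟩
          · left
            refine ⟨z, Ne.symm hcz, by simp, ?_⟩
            have : W G c z (g c + S + 1) := by
              rcases hz with rfl | rfl
              · exact hw1
              · exact hw2
            simpa [add_assoc] using this
          · right
            exact hfull
      · have := sum_update g z (S + 1)
        omega
      · have := card_supp_update_pos g z (S + 1)
        omega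

/-- Balls meet at most in their boundaries. -/
def NoOverlap (G : SimpleGraph V) (h : V → ℕ) : Prop :=
  ∀ u v, u ≠ v → 0 < h u → 0 < h v → ∀ t, W G u v t → h u + h v ≤ t

lemma stepA : ∀ (k : ℕ) (g : V → ℕ), StA G g → (supp g).card ≤ k →
    ∃ h, StA G h ∧ NoOverlap G h ∧ ∑ v, h v ≤ ∑ v, g v := by
  classical
  intro k
  induction k with
  | zero =>
    intro g hA hk
    refine ⟨g, hA, ?_, le_rfl⟩
    intro u v _ hu
    have : u ∈ supp g := mem_supp.2 hu
    rw [Finset.card_eq_zero.1 (Nat.le_zero.1 hk)] at this
    simp at this
  | succ k ih =>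
    intro g hA hk
    by_cases hno : NoOverlap G g
    · exact ⟨g, hA, hno, le_rfl⟩
    · unfold NoOverlap at hno
      push Not at hno
      obtain ⟨u, v, huv, hu, hv, t, hW, ht⟩ := hno
      obtain ⟨a, ha⟩ : ∃ a, g u = a + 1 := ⟨g u - 1, by omega⟩
      obtain ⟨b, hb⟩ : ∃ b, g v = b + 1 := ⟨g v - 1, by omega⟩
      have hW' : W G u v (a + b + 1) := hW.mono (by omega)
      obtain ⟨y, y', hyy, huy, hyv⟩ := merge hW'
      obtain ⟨hdom, hsat⟩ := hA
      set g' : V → ℕ := Function.update (Function.update g u 0) v 0 with hg'
      have hg'ne : ∀ c, c ≠ u → c ≠ v → g' c = g c := by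
        intro c h1 h2
        rw [hg', Function.update_of_ne h2, Function.update_of_ne h1]
      have hg'v : g' v = 0 := by simp [hg']
      have hg'u : g' u = 0 := by
        rw [hg', Function.update_of_ne huv]; simp
      have hB : StB G g' y y' (a + b + 1) := by
        refine ⟨hyy, ?_, ?_⟩
        · intro x
          obtain ⟨c, hc, hx⟩ := hdom x
          by_cases h1 : c = u
          · subst h1
            right; left
            rw [ha] at hx
            exact (hx.trans huy).mono (by omega)
          · by_cases h2 : c = v
            · subst h2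
              right; right
              rw [hb] at hx
              exact (hx.trans hyv.symm).mono (by omega)
            · left
              exact ⟨c, by rwa [hg'ne c h1 h2], by rwa [hg'ne c h1 h2]⟩
        · intro c hc
          have h1 : c ≠ u := by rintro rfl; omega
          have h2 : c ≠ v := by rintro rfl; omega
          rw [hg'ne c h1 h2] at hc ⊢
          rcases hsat c hc with ⟨c', hc'ne, hc', hWc⟩ | hfull
          · by_cases h3 : c' = u
            · subst h3
              right; left
              rw [ha] at hWc
              have h := hWc.trans huy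
              exact ⟨h.mono (by omega), (h.trans hyy).mono (by omega)⟩
            · by_cases h4 : c' = v
              · subst h4
                right; left
                rw [hb] at hWc
                have h := hWc.trans hyv.symm
                exact ⟨(h.trans hyy.symm).mono (by omega), h.mono (by omega)⟩
              · left
                exact ⟨c', hc'ne, by rwa [hg'ne c' h3 h4], by rwa [hg'ne c' h3 h4]⟩
          · right; right
            exact hfull
      have hcard1 := card_supp_update_zero g u hu
      have hv' : 0 < Function.update g u 0 v := by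
        rw [Function.update_of_ne huv.symm]; exact hv
      have hcard2 := card_supp_update_zero (Function.update g u 0) v hv'
      have hs1 := sum_update g u 0
      have hs2 := sum_update (Function.update g u 0) v 0
      rw [Function.update_of_ne huv.symm] at hs2
      rw [← hg'] at hcard2 hs2
      obtain ⟨h, hAh, hsum, hcd⟩ := stepB _ g' y y' (a + b + 1) hB rfl
      obtain ⟨h', hA', hno', hsum'⟩ := ih h hAh (by omega)
      exact ⟨h', hA', hno', by omega⟩

/-! ### From a maximal hearing independent broadcast to a state -/

lemma ecc_pos_of_adj {v w : V} (h : G.Adj v w) : 0 < ecc G v := by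
  have := dist_le_ecc (G := G) v w
  rw [dist_eq_one_iff_adj.2 h] at this
  omega

omit [Fintype V] in
lemma reachable_eq_of_isolated {v x : V} (h : ¬ ∃ w, G.Adj v w) (hr : G.Reachable v x) :
    x = v := by
  obtain ⟨p⟩ := hr
  cases p with
  | nil => rfl
  | cons hadj _ => exact absurd ⟨_, hadj⟩ h

lemma stA_of_maximal {f : V → ℕ} (hf : IsMaximalBroadcast G (HearingIndependent G) f) :
    StA G f := by
  classical
  obtain ⟨hb, hind, hmax⟩ := hf
  refine ⟨?_, ?_⟩
  · intro x
    by_cases hx : 0 < f x
    · exact ⟨x, hx, W.refl _ _⟩
    · have hx0 : f x = 0 := by omega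
      have hadj : ∃ w, G.Adj x w := by
        by_contra h
        have := hb.isolated x h
        omega
      obtain ⟨w, hw⟩ := hadj
      have hecc := ecc_pos_of_adj hw
      have hb' : IsBroadcast G (Function.update f x 1) := by
        constructor
        · intro v hv
          by_cases hvx : v = x
          · subst hvx; simp; omega
          · rw [Function.update_of_ne hvx]; exact hb.le_ecc v hv
        · intro v hv
          by_cases hvx : v = x
          · subst hvx; simp
          · rw [Function.update_of_ne hvx]; exact hb.isolated v hv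
      have hnot : ¬ HearingIndependent G (Function.update f x 1) := by
        intro h
        have := hmax _ hb' h (by
          intro v
          by_cases hvx : v = x
          · subst hvx; simp; omega
          · rw [Function.update_of_ne hvx])
        have h1 := congrFun this x
        simp at h1
        omega
      unfold HearingIndependent at hnot
      push Not at hnot
      obtain ⟨u, v, hu, hv, huv, hpos, hr, hd⟩ := hnot
      by_cases hvx : v = x
      · subst hvx
        rw [Function.update_of_ne huv] at hu
        simp only [Function.update_self] at hd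
        exact ⟨u, hu, W_of hr.symm (by rw [dist_comm]; omega)⟩
      · rw [Function.update_of_ne hvx] at hv hd
        by_cases hux : u = x
        · subst hux
          exact ⟨v, hv, W_of hr hd⟩
        · rw [Function.update_of_ne hux] at hu
          exact absurd ⟨hv, hr, hd⟩ (hind u v hu hv huv)
  · intro c hc
    by_cases hfull : ecc G c ≤ f c
    · right
      intro x hx
      refine W_of hx.symm ?_
      rw [dist_comm]
      exact (dist_le_ecc c x).trans hfull
    · left
      push Not at hfull
      have hb' : IsBroadcast G (Function.update f c (f c + 1)) := by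
        constructor
        · intro v hv
          by_cases hvc : v = c
          · subst hvc; simp; omega
          · rw [Function.update_of_ne hvc]; exact hb.le_ecc v hv
        · intro v hv
          by_cases hvc : v = c
          · subst hvc
            exfalso
            obtain ⟨w, hw, hw'⟩ := exists_dist_eq_ecc (G := G) v
            have := reachable_eq_of_isolated hv hw
            subst this
            rw [dist_self] at hw'
            omega
          · rw [Function.update_of_ne hvc]; exact hb.isolated v hv
      have hnot : ¬ HearingIndependent G (Function.update f c (f c + 1)) := by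
        intro h
        have := hmax _ hb' h (by
          intro v
          by_cases hvc : v = c
          · subst hvc; simp
          · rw [Function.update_of_ne hvc])
        have h1 := congrFun this c
        simp at h1
      unfold HearingIndependent at hnot
      push Not at hnot
      obtain ⟨u, v, hu, hv, huv, hpos, hr, hd⟩ := hnot
      have hu' : 0 < f u := by
        by_cases huc : u = c
        · subst huc; exact hc
        · rwa [Function.update_of_ne huc] at hu
      by_cases hvc : v = c
      · subst hvc
        simp only [Function.update_self] at hd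
        exact ⟨u, huv, hu', W_of hr.symm (by rw [dist_comm]; omega)⟩
      · rw [Function.update_of_ne hvc] at hv hd
        exact absurd ⟨hv, hr, hd⟩ (hind u v hu' hv huv)

/-! ### From a final state to a maximal boundary independent broadcast -/

lemma pairwise_of_bn {g : V → ℕ} (hg : BnIndependent G g) {u v : V} (huv : u ≠ v)
    (hu : 0 < g u) (hv : 0 < g v) (hr : G.Reachable u v) : g u + g v ≤ G.dist u v := by
  by_contra hcon
  push Not at hcon
  obtain ⟨a, ha⟩ : ∃ a, g u = a + 1 := ⟨g u - 1, by omega⟩
  obtain ⟨p, hp⟩ := hr.exists_walk_length_eq_dist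
  set t := min a p.length with ht
  have h1' : W G u (p.getVert t) t := ⟨p.take t, by rw [Walk.take_length]; omega⟩
  have h1 : W G (p.getVert t) u t := h1'.symm
  have h2 : W G (p.getVert t) v (p.length - t) := ⟨p.drop t, by rw [Walk.drop_length]⟩
  have h3 := hg (p.getVert t) ⟨u, v, huv, ⟨hu, h1.reachable, by have := h1.dist_le; omega⟩,
    ⟨hv, h2.reachable, by have := h2.dist_le; omega⟩⟩ u hu h1.reachable
  have := h1.dist_le
  omega

lemma final {h : V → ℕ} (hA : StA G h) (hno : NoOverlap G h) :
    ∃ g, IsMaximalBroadcast G (BnIndependent G) g ∧ ∑ v, g v ≤ ∑ v, h v := by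
  classical
  obtain ⟨hdom, hsat⟩ := hA
  have hiso_pos : ∀ v, (¬ ∃ w, G.Adj v w) → 0 < h v := by
    intro v hv
    obtain ⟨c, hc, hW⟩ := hdom v
    have := reachable_eq_of_isolated hv hW.reachable
    subst this
    exact hc
  let g : V → ℕ := fun v => if ∃ w, G.Adj v w then min (h v) (ecc G v) else 1
  have g_adj : ∀ v, (∃ w, G.Adj v w) → g v = min (h v) (ecc G v) := fun v hv => if_pos hv
  have g_iso : ∀ v, (¬ ∃ w, G.Adj v w) → g v = 1 := fun v hv => if_neg hv
  have hgh : ∀ v, g v ≤ h v := by
    intro v
    by_cases hv : ∃ w, G.Adj v w
    · rw [g_adj v hv]; exact min_le_left _ _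
    · rw [g_iso v hv]; exact hiso_pos v hv
  have hpos : ∀ v, 0 < g v ↔ 0 < h v := by
    intro v
    refine ⟨fun hv => lt_of_lt_of_le hv (hgh v), fun hv => ?_⟩
    by_cases hv' : ∃ w, G.Adj v w
    · rw [g_adj v hv']
      obtain ⟨w, hw⟩ := hv'
      exact lt_min hv (ecc_pos_of_adj hw)
    · rw [g_iso v hv']; exact one_pos
  -- domination
  have hdomg : ∀ x, ∃ c, 0 < g c ∧ W G x c (g c) := by
    intro x
    obtain ⟨c, hc, hW⟩ := hdom x
    refine ⟨c, (hpos c).2 hc, ?_⟩
    by_cases hc' : ∃ w, G.Adj c w
    · rw [g_adj c hc']
      refine W_of hW.reachable (le_min hW.dist_le ?_)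
      rw [dist_comm]
      exact dist_le_ecc c x
    · have := reachable_eq_of_isolated hc' hW.reachable.symm
      subst this
      exact W.refl _ _
  have hnog : ∀ u v, u ≠ v → 0 < g u → 0 < g v → G.Reachable u v → g u + g v ≤ G.dist u v := by
    intro u v huv hu hv hr
    have := hno u v huv ((hpos u).1 hu) ((hpos v).1 hv) _ (W_of hr le_rfl)
    have h1 := hgh u
    have h2 := hgh v
    omega
  refine ⟨g, ⟨?_, ?_, ?_⟩, Finset.sum_le_sum fun v _ => hgh v⟩
  · -- broadcast
    exact ⟨fun v hv => by rw [g_adj v hv]; exact min_le_right _ _, g_iso⟩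
  · -- boundary independent
    rintro x ⟨u, v, huv, ⟨hu, hru, hdu⟩, ⟨hv, hrv, hdv⟩⟩ w hw hrw
    have hr : G.Reachable u v := hru.symm.trans hrv
    have h1 := hnog u v huv hu hv hr
    have h2 : G.dist u v ≤ G.dist u x + G.dist x v := hru.symm.dist_triangle_left v
    rw [dist_comm (u := u) (v := x)] at h2
    by_cases hwu : w = u
    · subst hwu; omega
    · have h3 := hnog w u hwu hw hu (hrw.symm.trans hru)
      have h4 : G.dist w u ≤ G.dist w x + G.dist x u := hrw.symm.dist_triangle_left u
      rw [dist_comm (u := w) (v := x)] at h4
      omega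
  · -- maximality
    intro g' hb' hbn' hle
    funext v
    by_contra hne
    have hlt : g v < g' v := lt_of_le_of_ne (hle v) (Ne.symm hne)
    by_cases hiso : ∃ w, G.Adj v w
    · have hecc' := hb'.le_ecc v hiso
      by_cases hgv : 0 < g v
      · rcases hsat v ((hpos v).1 hgv) with ⟨c, hcv, hc, hW⟩ | hfull
        · have hgc : 0 < g c := (hpos c).2 hc
          have h1 := hno v c (Ne.symm hcv) ((hpos v).1 hgv) hc _ (W_of hW.reachable le_rfl)
          have h2 := hW.dist_le
          have h3 := pairwise_of_bn hbn' (Ne.symm hcv) (lt_of_lt_of_le hgv (hle v))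
            (lt_of_lt_of_le hgc (hle c)) hW.reachable
          have h4 : g v = h v := by
            rw [g_adj v hiso]
            have := dist_le_ecc (G := G) v c
            omega
          have h5 : g c = h c := by
            have hadj : ∃ w, G.Adj c w := by
              by_contra hcon
              have := reachable_eq_of_isolated hcon hW.reachable.symm
              exact hcv this.symm
            rw [g_adj c hadj]
            have := dist_le_ecc (G := G) c v
            rw [dist_comm] at this
            omega
          have h6 := hle c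
          omega
        · -- full ball
          have h1 : ecc G v ≤ h v := by
            obtain ⟨w, hw, hw'⟩ := exists_dist_eq_ecc (G := G) v
            rw [← hw', dist_comm]
            exact (hfull w hw).dist_le
          have h2 : g v = ecc G v := by
            rw [g_adj v hiso]; omega
          omega
      · obtain ⟨c, hc, hW⟩ := hdomg v
        have hvc : v ≠ c := by rintro rfl; exact hgv hc
        have h3 := pairwise_of_bn hbn' hvc (by omega) (lt_of_lt_of_le hc (hle c)) hW.reachable
        have h4 := hW.dist_le
        have h5 := hle c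
        omega
    · have h1 := hb'.isolated v hiso
      have h2 := g_iso v hiso
      omega

/-! ### Existence of maximal broadcasts -/

lemma exists_maximal_hearing (G : SimpleGraph V) :
    ∃ f, IsMaximalBroadcast G (HearingIndependent G) f := by
  classical
  let T : Set ℕ := {c | ∃ f, IsBroadcast G f ∧ HearingIndependent G f ∧ ∑ v, f v = c}
  have hne : T.Nonempty := by
    let f : V → ℕ := fun v => if ∃ w, G.Adj v w then 0 else 1
    refine ⟨_, f, ⟨fun v hv => by simp [f, hv], fun v hv => by simp only [f]; exact if_neg hv⟩,
      ?_, rfl⟩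
    intro u v hu _ huv hh
    have hiso : ¬ ∃ w, G.Adj u w := by
      intro h
      simp only [f] at hu
      rw [if_pos h] at hu
      omega
    exact huv (reachable_eq_of_isolated hiso hh.2.1).symm
  have hbdd : BddAbove T := by
    refine ⟨∑ v, (ecc G v + 1), ?_⟩
    rintro c ⟨f, hf, -, rfl⟩
    refine Finset.sum_le_sum fun v _ => ?_
    by_cases hv : ∃ w, G.Adj v w
    · exact (hf.le_ecc v hv).trans (by omega)
    · rw [hf.isolated v hv]; omega
  obtain ⟨f, hf, hi, hs⟩ := Nat.sSup_mem hne hbdd
  refine ⟨f, hf, hi, fun g hg hgi hle => ?_⟩
  by_contra hgf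
  have hlt : ∑ v, f v < ∑ v, g v := by
    obtain ⟨v, hv⟩ : ∃ v, g v ≠ f v := by
      by_contra h
      push Not at h
      exact hgf (funext h)
    exact Finset.sum_lt_sum (fun v _ => hle v)
      ⟨v, Finset.mem_univ v, lt_of_le_of_ne (hle v) (Ne.symm hv)⟩
  have := le_csSup hbdd ⟨g, hg, hgi, rfl⟩
  omega

lemma exists_bn_of_hearing {f : V → ℕ} (hf : IsMaximalBroadcast G (HearingIndependent G) f) :
    ∃ g, IsMaximalBroadcast G (BnIndependent G) g ∧ ∑ v, g v ≤ ∑ v, f v := by
  obtain ⟨h, hA, hno, hs⟩ := stepA _ f (stA_of_maximal hf) le_rfl
  obtain ⟨g, hg, hs'⟩ := final hA hno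
  exact ⟨g, hg, hs'.trans hs⟩

/-- For every finite graph, maximal boundary independent and maximal hearing independent
broadcasts exist, and `i_bn(G) ≤ i_h(G)`. -/
theorem result {V : Type u} [Fintype V] (G : SimpleGraph V) :
    (costs G (BnIndependent G)).Nonempty ∧ (costs G (HearingIndependent G)).Nonempty ∧
      ibn G ≤ ih G := by
  obtain ⟨f, hf⟩ := exists_maximal_hearing G
  obtain ⟨g, hg, -⟩ := exists_bn_of_hearing hf
  refine ⟨⟨_, g, hg, rfl⟩, ⟨_, f, hf, rfl⟩, ?_⟩
  have hne : (costs G (HearingIndependent G)).Nonempty := ⟨_, f, hf, rfl⟩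
  obtain ⟨f', hf', hs'⟩ := Nat.sInf_mem hne
  obtain ⟨g', hg', hs''⟩ := exists_bn_of_hearing hf'
  calc ibn G ≤ ∑ v, g' v := Nat.sInf_le ⟨g', hg', rfl⟩
    _ ≤ ∑ v, f' v := hs''
    _ = ih G := hs'

end Pool.Agent.Lib.MP_2a7bed_co.BnLeHearing
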